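import Pool.Agent.Q269.DX.St

/-!
# Project DX, job DX-ANA: from the cells of tuples of primes to all polynomials
-/

set_option autoImplicit false
set_option linter.all false

open scoped Classical
open Finset Polynomial Filter Topology

namespace Pool.Agent.Q129.DX

open Pool.Agent.Q269.DX
open Pool.Agent.Q269.DX.Bs (prs ext ze)
open Pool.Agent.Q269.DX.JQ Pool.Agent.Q269.DX.LD
open Pool.Agent.H341R2.Sharp (lam)
open Pool.Agent.Y164.PS (L Fam Tp mem_Tp cell lgs cell_deg cell_eq lgs_eq self_cell cell_Tp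
  cells_nonneg tup_prod fibre tuple_sum small_eq Pr mem_Pr card_Pr_ge char_sum Sf mem_Sf pf mem_pf
  numcore m_le sm card_Mon)
open Pool.Agent.Y164.HG (ok nb dQ et et_nonneg)

section cells

variable {k : Type} [Field k] [Fintype k] [DecidableEq k]
variable {ι τ : Type} [Fintype ι] [Fintype τ] {Q : τ → k[X]}

theorem cellx_inst (hk : ringChar k ≠ 2) (hm : IsSquare (-1 : k)) (hQ : Fam Q)
    (hq : 4 ≤ Fintype.card k) {n z : ℕ} (hz : 2 ≤ z) {T0 : ι → k[X]} (hT0 : T0 ∈ Tp k ι n) :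
    CellX Q (cell z T0) (lgs z T0) (n + dQ Q) (et Q n z) := by
  have hT := mem_Tp.1 hT0
  have hmn := m_le hT0
  have key : ∀ j ∈ lgs z T0, cell z T0 j = Pr k (T0 j).natDegree ∧ z ≤ (T0 j).natDegree ∧
      (T0 j).natDegree ≤ n := by
    intro j hj
    rw [lgs, mem_filter] at hj
    refine ⟨?_, hj.2, ?_⟩
    · rw [cell, if_neg (by omega)]
    · rw [← hT.2]
      exact single_le_sum (f := fun i => (T0 i).natDegree) (fun _ _ => Nat.zero_le _) (mem_univ j)
  have est : ∀ j ∈ lgs z T0, ∀ S : ℝ, 0 ≤ S →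
      ((T0 j).natDegree : ℝ) * S ≤ (5 * (n + dQ Q : ℕ) + 2) *
        (Real.sqrt (Fintype.card k)) ^ (T0 j).natDegree →
      S + (Fintype.card (ι) + Fintype.card (τ)) ≤ et Q n z * (cell z T0 j).card := by
    intro j hj S hS0 hS
    obtain ⟨h1, h2, h3⟩ := key j hj
    rw [h1]
    set m : ℕ := Fintype.card ι with hm
    set d := (T0 j).natDegree with hd
    have hd1 : 1 ≤ d := by omega
    set r : ℝ := Real.sqrt (Fintype.card k) with hr
    have hr2 : 2 ≤ r := by
      rw [hr]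
      apply Real.le_sqrt_of_sq_le
      norm_num
      exact_mod_cast hq
    have hrr : (Fintype.card k : ℝ) = r ^ 2 := by
      rw [hr, Real.sq_sqrt (Nat.cast_nonneg _)]
    have h4 := card_Pr_ge (k := k) hk d hd1
    rw [← hr, hrr, ← pow_mul, mul_comm 2 d, pow_mul] at h4
    have hdn : (d : ℝ) ≤ n := by exact_mod_cast h3
    have hmn' : (m : ℝ) ≤ n := by exact_mod_cast hmn
    exact numcore hr2 h2 hz hdn hmn' (Nat.cast_nonneg _) (Nat.cast_nonneg _) (Nat.cast_nonneg _)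
      hS0 hS h4
  refine ⟨hm, hQ.mon, hQ.irr, hQ.inj, ?_, ?_, ?_, ?_, ?_, et_nonneg _ _, ?_, ?_⟩
  · intro i p hp
    rw [cell] at hp
    split_ifs at hp with h
    · rw [mem_singleton.1 hp]; exact (hT.1 i).1
    · exact (mem_Pr.1 hp).1
  · intro i p hp
    rw [cell] at hp
    split_ifs at hp with h
    · rw [mem_singleton.1 hp]; exact (hT.1 i).2
    · exact (mem_Pr.1 hp).2.1
  · intro T hT'
    simp only [cell_deg hT']
    rw [hT.2]
    exact le_rfl
  · intro j hj M hM hM1 hM2 hM3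
    apply est j hj _ (abs_nonneg _)
    obtain ⟨h1, h2, h3⟩ := key j hj
    rw [h1]
    refine (char_sum hk hM hM1 hM3 _ (by omega)).trans ?_
    apply mul_le_mul_of_nonneg_right _ (pow_nonneg (Real.sqrt_nonneg _) _)
    have : (M.natDegree : ℝ) ≤ (n + dQ Q : ℕ) := by exact_mod_cast hM2
    linarith
  · intro j hj
    have := est j hj 0 le_rfl (by
      rw [mul_zero]
      have h1 : (0 : ℝ) ≤ (n + dQ Q : ℕ) := Nat.cast_nonneg _
      exact mul_nonneg (by linarith) (pow_nonneg (Real.sqrt_nonneg _) _))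
    rw [zero_add] at this
    exact this
  · intro i hi
    rw [lgs, mem_filter] at hi
    push Not at hi
    exact ⟨T0 i, by rw [cell, if_pos (hi (mem_univ _))]⟩
  · intro i p hp p' hp'
    rw [cell] at hp hp'
    split_ifs at hp hp' with h
    · rw [mem_singleton.1 hp, mem_singleton.1 hp']
    · rw [(mem_Pr.1 hp).2.2, (mem_Pr.1 hp').2.2]

/-- typical tuples -/
noncomputable def Xp (k : Type) [Field k] [Fintype k] [DecidableEq k] (ι : Type) [Fintype ι]
    (R n z s : ℕ) : Finset (ι → k[X]) :=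
  (Tp k ι n).filter fun T => Fintype.card ι - (lgs z T).card ≤ s ∧
    ∀ b : ZMod 2, R * s ≤ ((lgs z T).filter fun i => (((T i).natDegree : ℕ) : ZMod 2) = b).card

theorem Xp_closed {R n z s : ℕ} : ∀ T0 ∈ Xp k ι R n z s, ∀ T ∈ Fintype.piFinset (cell z T0),
    T ∈ Xp k ι R n z s := by
  intro T0 h0 T hT
  rw [Xp, mem_filter] at h0 ⊢
  refine ⟨cell_Tp h0.1 hT, ?_⟩
  simp only [lgs_eq hT, cell_deg hT]
  exact h0.2

theorem Xp_self {R n z s : ℕ} : ∀ T ∈ Xp k ι R n z s, T ∈ Fintype.piFinset (cell z T) := by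
  intro T hT
  rw [Xp, mem_filter] at hT
  exact self_cell hT.1

/-- typical polynomials -/
def tt (R s z : ℕ) (D : k[X]) : Prop :=
  sm z D ≤ s ∧ ∀ b : ZMod 2, R * s ≤
    ((pf D).filter fun P => z ≤ P.natDegree ∧ ((P.natDegree : ℕ) : ZMod 2) = b).card

theorem tt_iff {R n z s : ℕ} {T : ι → k[X]} (hT : T ∈ Tp k ι n) (hi : Function.Injective T) :
    tt R s z (∏ i, T i) ↔ (Fintype.card ι - (lgs z T).card ≤ s ∧
      ∀ b : ZMod 2, R * s ≤
        ((lgs z T).filter fun i => (((T i).natDegree : ℕ) : ZMod 2) = b).card) := by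
  have h4 := small_eq (z := z) hT hi
  have h5 : sm z (∏ i, T i) = Fintype.card ι - (lgs z T).card := h4
  have h6 : ∀ b : ZMod 2, ((pf (∏ i, T i)).filter fun P => z ≤ P.natDegree ∧
      ((P.natDegree : ℕ) : ZMod 2) = b).card =
        ((lgs z T).filter fun i => (((T i).natDegree : ℕ) : ZMod 2) = b).card := by
    intro b
    rw [(tup_prod hT hi).2, filter_image, card_image_of_injective _ hi]
    congr 1
    ext i
    rw [mem_filter, mem_filter, lgs, mem_filter]
    constructor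
    · rintro ⟨h1, h2, h3⟩
      exact ⟨⟨h1, h2⟩, h3⟩
    · rintro ⟨⟨h1, h2⟩, h3⟩
      exact ⟨h1, h2, h3⟩
  rw [tt, h5]
  simp only [h6]

theorem convx (R n z s : ℕ) (p : k[X] → Prop) :
    ∑ T ∈ Xp k ι R n z s, (if Function.Injective T ∧ p (∏ i, T i) then (1 : ℝ) else 0) =
      ((Fintype.card ι).factorial : ℝ) *
        (((Sf k n).filter fun D => (pf D).card = Fintype.card ι ∧ tt R s z D ∧ p D).card : ℝ) := by
  have h1 := tuple_sum (k := k) (ι := ι) n (fun D => if tt R s z D ∧ p D then (1 : ℝ) else 0)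
  have h2 : ∑ D ∈ (Sf k n).filter (fun D => (pf D).card = Fintype.card ι),
      (if tt R s z D ∧ p D then (1 : ℝ) else 0) =
      (((Sf k n).filter fun D => (pf D).card = Fintype.card ι ∧ tt R s z D ∧ p D).card : ℝ) := by
    rw [← sum_filter, filter_filter, sum_const, nsmul_one]
  rw [h2] at h1
  rw [← h1, Xp, sum_filter, sum_filter]
  refine sum_congr rfl fun T hT => ?_
  by_cases h3 : Function.Injective T
  · have h4 := tt_iff (R := R) (z := z) (s := s) hT h3
    rw [if_pos h3]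
    simp only [← h4]
    by_cases h6 : tt R s z (∏ i, T i)
    · rw [if_pos h6]
      by_cases h7 : p (∏ i, T i)
      · rw [if_pos ⟨h3, h7⟩, if_pos ⟨h6, h7⟩]
      · rw [if_neg (fun h => h7 h.2), if_neg (fun h => h7 h.2)]
    · rw [if_neg h6, if_neg (fun h => h6 h.1)]
  · rw [if_neg h3]
    split_ifs with h5 h6
    · exact absurd h6.1 h3
    · rfl
    · rfl

theorem okx_iff (hQ : Fam Q) {n : ℕ} {T : ι → k[X]} (hT : T ∈ Tp k ι n) :
    ok Q T ↔ Function.Injective T ∧ nb Q (∏ i, T i) := by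
  have h1 := (mem_Tp.1 hT).1
  constructor
  · intro h
    refine ⟨fun i j hij => Sum.inl_injective (h (a₁ := Sum.inl i) (a₂ := Sum.inl j) hij), ?_⟩
    intro s hs
    obtain ⟨i, -, hd⟩ := (((hQ).irr s).prime.dvd_finset_prod_iff _).1 hs
    have h2 : T i = Q s := (eq_of_monic_of_associated (hQ.mon s) (h1 i).1
      ((hQ.irr s).associated_of_dvd (h1 i).2 hd)).symm
    have h3 : (Sum.inl i : ι ⊕ τ) = Sum.inr s := h h2
    cases h3
  · rintro ⟨h2, h3⟩
    rintro (i | s) (j | s') h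
    · exact congrArg _ (h2 h)
    · exfalso
      apply h3 s'
      have h' : T i = Q s' := h
      rw [← h']
      exact dvd_prod_of_mem _ (mem_univ i)
    · exfalso
      apply h3 s
      have h' : Q s = T j := h
      rw [h']
      exact dvd_prod_of_mem _ (mem_univ j)
    · exact congrArg _ (hQ.inj h)

end cells

/-- the product of the finite sets, with a fixed instance -/
noncomputable def pc {k : Type} [Field k] {ι : Type} [Fintype ι] (𝒞 : ι → Finset k[X]) :
    Finset (ι → k[X]) := Fintype.piFinset 𝒞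

theorem mem_pc {k : Type} [Field k] {ι : Type} [Fintype ι] {𝒞 : ι → Finset k[X]} {T : ι → k[X]} :
    T ∈ pc 𝒞 ↔ ∀ i, T i ∈ 𝒞 i := Fintype.mem_piFinset

theorem pc_eq {k : Type} [Field k] {ι : Type} [Fintype ι] [i1 : DecidableEq ι]
    (𝒞 : ι → Finset k[X]) : @Fintype.piFinset ι i1 _ _ 𝒞 = pc 𝒞 := by
  ext T
  rw [mem_pc, Fintype.mem_piFinset]

theorem Xp_closed' {k : Type} [Field k] [Fintype k] [DecidableEq k] {ι : Type} [Fintype ι]
    {R n z s : ℕ} : ∀ T0 ∈ Xp k ι R n z s, ∀ T ∈ pc (cell z T0), T ∈ Xp k ι R n z s := Xp_closed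

theorem Xp_self' {k : Type} [Field k] [Fintype k] [DecidableEq k] {ι : Type} [Fintype ι]
    {R n z s : ℕ} : ∀ T ∈ Xp k ι R n z s, T ∈ pc (cell z T) := Xp_self

theorem cells_nonneg' {k : Type} [Field k] [Fintype k] [DecidableEq k] {ι : Type} [Fintype ι]
    {z : ℕ} {X : Finset (ι → k[X])} (hX : ∀ T0 ∈ X, ∀ T ∈ pc (cell z T0), T ∈ X)
    (hself : ∀ T ∈ X, T ∈ pc (cell z T)) (F : (ι → k[X]) → ℝ)
    (h : ∀ T0 ∈ X, 0 ≤ ∑ T ∈ pc (cell z T0), F T) : 0 ≤ ∑ T ∈ X, F T :=
  cells_nonneg hX hself F h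

theorem cell_deg' {k : Type} [Field k] [Fintype k] [DecidableEq k] {ι : Type} [Fintype ι]
    {z : ℕ} {T T' : ι → k[X]} (h : T' ∈ pc (cell z T)) (i : ι) :
    (T' i).natDegree = (T i).natDegree := cell_deg h i

theorem lgs_eq' {k : Type} [Field k] [Fintype k] [DecidableEq k] {ι : Type} [Fintype ι]
    {z : ℕ} {T T' : ι → k[X]} (h : T' ∈ pc (cell z T)) : lgs z T' = lgs z T := lgs_eq h

/-- one level -/
theorem level {k : Type} [Field k] [Fintype k] [DecidableEq k] {τ : Type} [Fintype τ]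
    {ι : Type} [Fintype ι] [LinearOrder ι]
    (BT : Finset ι → (ι → k[X]) → Prop)
    (hk : ringChar k ≠ 2) (hm : IsSquare (-1 : k)) (hq : 4 ≤ Fintype.card k)
    {Q : τ → k[X]} (hQ : Fam Q) {G : k[X] → Prop}
    (hG : ∀ (T : ι → k[X]) (lg : Finset ι), Fam (Sum.elim T Q) → G (∏ i, T i) → BT lg T)
    {R' : ℕ} {C δ : ℝ}
    (hC : ∀ (𝒞 : ι → Finset k[X]) (lg : Finset ι) (Nd : ℕ)
      (η : ℝ) (s : ℕ), CellX Q 𝒞 lg Nd η → 1 ≤ s → Fintype.card ι - lg.card ≤ s →
      (∀ T ∈ pc 𝒞, ∀ b : ZMod 2,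
        R' * s ≤ (lg.filter fun i => (((T i).natDegree : ℕ) : ZMod 2) = b).card) →
      C * (1 / 2) ^ s ≤ 1 → η * (C * 2 ^ ((Fintype.card ι + Fintype.card τ) ^ 2)) ≤ 1 →
      (((pc 𝒞).filter fun T => ok Q T ∧ BT lg T).card : ℝ) ≤
        δ * (((pc 𝒞).filter fun T => ok Q T).card : ℝ))
    {n m z s : ℕ} (hcm : Fintype.card ι = m) (hz : 2 ≤ z) (hs : 1 ≤ s)
    (hA : C * (1 / 2) ^ s ≤ 1)
    (hB : et Q n z * (C * 2 ^ ((m + Fintype.card τ) ^ 2)) ≤ 1) :
    (((Sf k n).filter fun D => (pf D).card = m ∧ tt R' s z D ∧ (nb Q D ∧ G D)).card : ℝ) ≤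
      δ * (((Sf k n).filter fun D => (pf D).card = m ∧ tt R' s z D ∧ nb Q D).card : ℝ) := by
  have key : ∀ T0 ∈ Xp k ι R' n z s,
      ∑ T ∈ pc (cell z T0), (if ok Q T ∧ BT (lgs z T) T then (1 : ℝ) else 0) ≤
      δ * ∑ T ∈ pc (cell z T0), (if ok Q T then (1 : ℝ) else 0) := by
    intro T0 h0
    rw [Xp, mem_filter] at h0
    have hc := cellx_inst (Q := Q) hk hm hQ hq hz h0.1
    have hp : ∀ T ∈ pc (cell z T0), ∀ b : ZMod 2,
        R' * s ≤ ((lgs z T0).filter fun i => (((T i).natDegree : ℕ) : ZMod 2) = b).card := by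
      intro T hT b
      have h2 := h0.2.2 b
      have h3 : ((lgs z T0).filter fun i => (((T i).natDegree : ℕ) : ZMod 2) = b) =
          (lgs z T0).filter fun i => (((T0 i).natDegree : ℕ) : ZMod 2) = b := by
        refine filter_congr fun i _ => ?_
        rw [cell_deg' hT i]
      rw [h3]
      exact h2
    have h1 := hC (cell z T0) (lgs z T0) (n + dQ Q) (et Q n z) s hc hs h0.2.1 hp hA
      (by rw [hcm]; exact hB)
    have e1 : ∑ T ∈ pc (cell z T0), (if ok Q T then (1 : ℝ) else 0) =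
        (((pc (cell z T0)).filter fun T => ok Q T).card : ℝ) := by
      rw [← sum_filter, sum_const, nsmul_one]
    have e2 : ∑ T ∈ pc (cell z T0), (if ok Q T ∧ BT (lgs z T) T then (1 : ℝ) else 0) =
        (((pc (cell z T0)).filter fun T => ok Q T ∧ BT (lgs z T0) T).card : ℝ) := by
      rw [← nsmul_one, ← sum_const, sum_filter]
      refine sum_congr rfl fun T hT => ?_
      rw [lgs_eq' hT]
    rw [e1, e2]
    exact h1
  have h1 := cells_nonneg' (z := z) (X := Xp k ι R' n z s) Xp_closed' Xp_self'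
    (fun T => δ * (if ok Q T then (1 : ℝ) else 0) -
      (if ok Q T ∧ BT (lgs z T) T then (1 : ℝ) else 0)) (by
      intro T0 h0
      have h2 := key T0 h0
      rw [sum_sub_distrib, ← mul_sum]
      exact sub_nonneg.2 h2)
  rw [sum_sub_distrib, ← mul_sum] at h1
  have h2 := sub_nonneg.1 h1
  have e2 : ∑ T ∈ Xp k ι R' n z s, (if ok Q T then (1 : ℝ) else 0)
      = ∑ T ∈ Xp k ι R' n z s, (if Function.Injective T ∧ nb Q (∏ i, T i)
        then (1 : ℝ) else 0) := by
    refine sum_congr rfl fun T hT => ?_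
    rw [Xp, mem_filter] at hT
    simp only [okx_iff hQ hT.1]
  obtain ⟨P, hP⟩ : ∃ P : k[X] → Prop, ∀ D, P D ↔ nb Q D ∧ G D := ⟨_, fun _ => Iff.rfl⟩
  have e3 : ∑ T ∈ Xp k ι R' n z s,
      (if Function.Injective T ∧ P (∏ i, T i) then (1 : ℝ) else 0) ≤
      ∑ T ∈ Xp k ι R' n z s, (if ok Q T ∧ BT (lgs z T) T then (1 : ℝ) else 0) := by
    apply sum_le_sum
    intro T hT
    rw [Xp, mem_filter] at hT
    by_cases h3' : Function.Injective T ∧ P (∏ i, T i)
    · rw [if_pos h3']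
      have h3 := h3'
      rw [hP] at h3
      have h5 : ok Q T := (okx_iff hQ hT.1).2 ⟨h3.1, h3.2.1⟩
      have h7 := (mem_Tp.1 hT.1)
      have hR : Fam (Sum.elim T (Q)) := by
        refine ⟨?_, ?_, h5⟩
        · rintro (i | s)
          · exact (h7.1 i).1
          · exact hQ.mon s
        · rintro (i | s)
          · exact (h7.1 i).2
          · exact hQ.irr s
      rw [if_pos ⟨h5, hG T (lgs z T) hR h3.2.2⟩]
    · rw [if_neg h3']
      split_ifs <;> norm_num
  have c2 := convx (k := k) (ι := ι) R' n z s (nb Q)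
  have c3 := convx (k := k) (ι := ι) R' n z s P
  have e4 : ((Sf k n).filter fun D => (pf D).card = m ∧ tt R' s z D ∧ (nb Q D ∧ G D)) =
      (Sf k n).filter fun D => (pf D).card = m ∧ tt R' s z D ∧ P D := by
    ext D
    rw [mem_filter, mem_filter, hP]
  rw [e4]
  rw [e2, c2] at h2
  rw [c3] at e3
  rw [hcm] at h2 e3
  have hf : (0 : ℝ) < (m.factorial : ℝ) := by exact_mod_cast Nat.factorial_pos _
  have h4 := e3.trans h2
  have h5 : (m.factorial : ℝ) *
      (((Sf k n).filter fun D => (pf D).card = m ∧ tt R' s z D ∧ P D).card : ℝ) ≤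
      (m.factorial : ℝ) *
        (δ * (((Sf k n).filter fun D => (pf D).card = m ∧ tt R' s z D ∧ nb Q D).card : ℝ)) := by
    linarith
  exact le_of_mul_le_mul_left h5 hf

/-- one level, for tuples indexed by a numeral -/
theorem level_fin {k : Type} [Field k] [Fintype k] [DecidableEq k] {τ : Type} [Fintype τ]
    (Bad : ∀ (U J : Type) [Fintype U] [Fintype J] [LinearOrder J],
      Bk (Option τ) U J → (prs (univ : Finset J) → ZMod 2) → Prop)
    (hk : ringChar k ≠ 2) (hm : IsSquare (-1 : k)) (hq : 4 ≤ Fintype.card k)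
    {Q : τ → k[X]} (hQ : Fam Q) {G : k[X] → Prop}
    (hG : ∀ (m : ℕ) (T : Fin m → k[X]) (lg : Finset (Fin m)), Fam (Sum.elim T Q) →
      G (∏ i, T i) → Bad _ _ (blk Q lg T) (alp lg T)) {R' : ℕ} {C δ : ℝ}
    (hC : ∀ (ι : Type) [Fintype ι] [LinearOrder ι] (𝒞 : ι → Finset k[X]) (lg : Finset ι) (Nd : ℕ)
      (η : ℝ) (s : ℕ), CellX Q 𝒞 lg Nd η → 1 ≤ s → Fintype.card ι - lg.card ≤ s →
      (∀ T ∈ Fintype.piFinset 𝒞, ∀ b : ZMod 2,
        R' * s ≤ (lg.filter fun i => (((T i).natDegree : ℕ) : ZMod 2) = b).card) →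
      C * (1 / 2) ^ s ≤ 1 → η * (C * 2 ^ ((Fintype.card ι + Fintype.card τ) ^ 2)) ≤ 1 →
      (((Fintype.piFinset 𝒞).filter fun T => ok Q T ∧ Bad _ _ (blk Q lg T) (alp lg T)).card : ℝ) ≤
        δ * (((Fintype.piFinset 𝒞).filter fun T => ok Q T).card : ℝ))
    {n m z s : ℕ} (hz : 2 ≤ z) (hs : 1 ≤ s) (hA : C * (1 / 2) ^ s ≤ 1)
    (hB : et Q n z * (C * 2 ^ ((m + Fintype.card τ) ^ 2)) ≤ 1) :
    (((Sf k n).filter fun D => (pf D).card = m ∧ tt R' s z D ∧ (nb Q D ∧ G D)).card : ℝ) ≤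
      δ * (((Sf k n).filter fun D => (pf D).card = m ∧ tt R' s z D ∧ nb Q D).card : ℝ) := by
  have hC' := hC (Fin m)
  simp only [pc_eq] at hC'
  exact level (ι := Fin m) (fun lg T => Bad _ _ (blk Q lg T) (alp lg T)) hk hm hq hQ (hG m) hC'
    (Fintype.card_fin m) hz hs hA hB

theorem t_ANA (h1 : S_CEL) (h2 : S_TYP) : S_ANA := by
  intro τ _ t₀ Bad hBad k _ _ _ hk hm hq Q hQ G hG δ hδ
  obtain ⟨A0, R0, hAR⟩ := hBad (δ / 2 / 2) (by positivity)
  obtain ⟨R', C, hR', hC1, hC⟩ := h1 τ t₀ Bad A0 R0 (δ / 2) (by positivity) hAR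
  obtain ⟨A, hA⟩ := h2 k hk hq τ Q R' C (δ / 2) (by linarith) (by positivity)
  filter_upwards [hA] with n hn
  obtain ⟨l, s, z, hs, hz, hCs, hB, htyp⟩ := hn
  have hlev : ∀ m ∈ range (A * l + 1),
      (((Sf k n).filter fun D => (pf D).card = m ∧ tt R' s z D ∧ (nb Q D ∧ G D)).card : ℝ) ≤
        δ / 2 * (((Sf k n).filter fun D => (pf D).card = m ∧ tt R' s z D ∧ nb Q D).card : ℝ) := by
    intro m hm'
    rw [mem_range] at hm'
    exact level_fin Bad hk hm hq hQ hG (hC k Q) hz hs hCs (hB m (by omega))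
  have hsub : ((Sf k n).filter fun D => nb Q D ∧ G D) ⊆
      ((Sf k n).filter fun D => ¬ tyx R' A l s z D) ∪ (range (A * l + 1)).biUnion
        (fun m => (Sf k n).filter fun D => (pf D).card = m ∧ tt R' s z D ∧ (nb Q D ∧ G D)) := by
    intro D hD
    rw [mem_filter] at hD
    rw [mem_union]
    by_cases h : tyx R' A l s z D
    · right
      rw [mem_biUnion]
      obtain ⟨h3, h4, h5⟩ := h
      exact ⟨(pf D).card, mem_range.2 (by omega), mem_filter.2 ⟨hD.1, rfl, ⟨h4, h5⟩, hD.2⟩⟩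
    · left
      exact mem_filter.2 ⟨hD.1, h⟩
  have hcard : (((Sf k n).filter fun D => nb Q D ∧ G D).card : ℝ) ≤
      (((Sf k n).filter fun D => ¬ tyx R' A l s z D).card : ℝ) +
        ∑ m ∈ range (A * l + 1),
          (((Sf k n).filter fun D => (pf D).card = m ∧ tt R' s z D ∧ (nb Q D ∧ G D)).card : ℝ) := by
    have h3 := (card_le_card hsub).trans (card_union_le _ _)
    have h4 := h3.trans (Nat.add_le_add_left card_biUnion_le _)
    exact_mod_cast h4
  have hsum : ∑ m ∈ range (A * l + 1),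
      (((Sf k n).filter fun D => (pf D).card = m ∧ tt R' s z D ∧ nb Q D).card : ℝ) ≤
        (Fintype.card k : ℝ) ^ n := by
    have h3 : ∑ m ∈ range (A * l + 1),
        ((Sf k n).filter fun D => (pf D).card = m ∧ tt R' s z D ∧ nb Q D).card ≤
        Fintype.card k ^ n := by
      rw [← card_biUnion, ← card_Mon (k := k) hk n]
      · apply card_le_card
        intro D hD
        obtain ⟨m, -, h⟩ := mem_biUnion.1 hD
        have h4 := (mem_filter.1 h).1
        rw [Sf, mem_filter] at h4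
        exact h4.1
      · intro m _ m' _ hne
        rw [Function.onFun, disjoint_left]
        intro D hD hD'
        exact hne ((mem_filter.1 hD).2.1.symm.trans (mem_filter.1 hD').2.1)
    exact_mod_cast h3
  have hfin := sum_le_sum hlev
  rw [← mul_sum] at hfin
  have h6 := mul_le_mul_of_nonneg_left hsum (by positivity : (0 : ℝ) ≤ δ / 2)
  have h7 : δ * (Fintype.card k : ℝ) ^ n =
      δ / 2 * (Fintype.card k : ℝ) ^ n + δ / 2 * (Fintype.card k : ℝ) ^ n := by ring
  rw [h7]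
  exact hcard.trans (add_le_add htyp (hfin.trans h6))

end Pool.Agent.Q129.DX
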